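import Pool.Agent.P8H88.OX.Pln

/-! # Project OX: package ALR -/

set_option autoImplicit false

open Module Matrix

namespace Pool.Agent.P8H88.OX

open Pool.Agent.Y119.HY (om om_eq om_add om_smul E E_isom E_mul_neg pl pl_eval pl_coeff pl_ne E_zero)
open Pool.Agent.P8H30.OX

theorem exists_out {s : Set ℂ} (hs : s.Countable) : ∃ c, c ∉ s := (hs.dense_compl ℂ).nonempty

theorem quad_fin (a b c : ℂ) (hc : c ≠ 0) : {η : ℂ | a + b * η + c * η ^ 2 = 0}.Finite := by
  have hne : (Polynomial.C a + Polynomial.C b * Polynomial.X + Polynomial.C c * Polynomial.X ^ 2 : Polynomial ℂ) ≠ 0 := by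
    intro h
    have h2 := congrArg (fun p => Polynomial.coeff p 2) h
    simp [Polynomial.coeff_X, Polynomial.coeff_C] at h2
    exact hc h2
  refine (Polynomial.finite_setOf_isRoot hne).subset ?_
  intro η hη
  simp only [Set.mem_setOf_eq] at hη ⊢
  rw [Polynomial.IsRoot.def]
  simp only [Polynomial.eval_add, Polynomial.eval_mul, Polynomial.eval_C, Polynomial.eval_X, Polynomial.eval_pow]
  exact hη

theorem lin_fin (a b : ℂ) (hb : b ≠ 0) : {η : ℂ | a + b * η = 0}.Finite := by
  apply Set.Subsingleton.finite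
  intro x hx y hy
  simp only [Set.mem_setOf_eq] at hx hy
  have : b * (x - y) = 0 := by linear_combination hx - hy
  rcases mul_eq_zero.mp this with h | h
  · exact absurd h hb
  · exact sub_eq_zero.mp h

variable {d : ℕ} {J N : Matrix (Fin d) (Fin d) ℂ}

/-- the functional `om J v` -/
noncomputable def omL (J : Matrix (Fin d) (Fin d) ℂ) (v : Fin d → ℂ) : (Fin d → ℂ) →ₗ[ℂ] ℂ where
  toFun := fun x => om J v x
  map_add' := om_add v
  map_smul' := fun c x => om_smul c v x

/-- the choice of `c` -/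
theorem choose_c (hCT : S_CTB) (v : Fin d → ℂ) (hN : N ^ d = 0) (hNv : (N ^ (d - 1)) *ᵥ v ≠ 0) (hvv : om J v v ≠ 0)
    (hi : ∃ i : ℕ, 1 ≤ i ∧ om J v ((N ^ i) *ᵥ v) ≠ 0) (l : (Fin d → ℂ) →ₗ[ℂ] ℂ) (hl : l ≠ 0) :
    ∃ c : ℂ, l (E N c *ᵥ v) ≠ 0 ∧ om J v (E N c *ᵥ v) ≠ 0 ∧
      ∀ k : ℕ, 1 ≤ k → uu (4 * om J v (E N c *ᵥ v) ^ 2 / om J v v ^ 2 - 2) k ≠ 0 := by
  obtain ⟨i, hi1, hi2⟩ := hi
  have hid : i < d := by
    by_contra hcon
    apply hi2
    rw [pow_eq_zero_of_le (by omega) hN, zero_mulVec]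
    unfold om; simp
  have hPe : ∀ c, (pl N v (omL J v)).eval c = om J v (E N c *ᵥ v) := fun c => pl_eval v (omL J v) c
  have hPi : (pl N v (omL J v)).coeff i ≠ 0 := by
    have h1 := pl_coeff (N := N) v (omL J v) ⟨i, hid⟩
    simp only at h1
    rw [h1]
    have h2 : ((i : ℕ).factorial : ℂ) ≠ 0 := by exact_mod_cast i.factorial_ne_zero
    exact div_ne_zero hi2 h2
  have hP0 : pl N v (omL J v) ≠ 0 := by
    intro h; apply hPi; rw [h, Polynomial.coeff_zero]
  have hb1 : {c : ℂ | l (E N c *ᵥ v) = 0}.Countable := by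
    apply Set.Finite.countable
    refine (Polynomial.finite_setOf_isRoot (pl_ne hN hNv hl)).subset ?_
    intro c hc
    simp only [Set.mem_setOf_eq] at hc ⊢
    rw [Polynomial.IsRoot.def, pl_eval]
    exact hc
  have hb2 : {c : ℂ | om J v (E N c *ᵥ v) = 0}.Countable := by
    apply Set.Finite.countable
    refine (Polynomial.finite_setOf_isRoot hP0).subset ?_
    intro c hc
    simp only [Set.mem_setOf_eq] at hc ⊢
    rw [Polynomial.IsRoot.def, hPe]
    exact hc
  have hb3 : (⋃ τ ∈ {τ : ℂ | ∃ k : ℕ, 1 ≤ k ∧ uu τ k = 0},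
      {c : ℂ | 4 * om J v (E N c *ᵥ v) ^ 2 / om J v v ^ 2 - 2 = τ}).Countable := by
    apply Set.Countable.biUnion hCT
    intro τ _
    apply Set.Finite.countable
    have hne : Polynomial.C 4 * (pl N v (omL J v)) ^ 2 - Polynomial.C ((τ + 2) * om J v v ^ 2) ≠ 0 := by
      intro h
      have h1 : Polynomial.C 4 * (pl N v (omL J v)) ^ 2 = Polynomial.C ((τ + 2) * om J v v ^ 2) := sub_eq_zero.mp h
      have h2 := congrArg Polynomial.natDegree h1
      rw [Polynomial.natDegree_C, Polynomial.natDegree_C_mul (by norm_num), Polynomial.natDegree_pow] at h2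
      apply hPi
      apply Polynomial.coeff_eq_zero_of_natDegree_lt
      omega
    refine (Polynomial.finite_setOf_isRoot hne).subset ?_
    intro c hc
    simp only [Set.mem_setOf_eq] at hc ⊢
    rw [Polynomial.IsRoot.def, Polynomial.eval_sub, Polynomial.eval_mul, Polynomial.eval_pow, Polynomial.eval_C,
      Polynomial.eval_C, hPe, ← hc]
    field_simp
    ring
  obtain ⟨c, hc⟩ := exists_out ((hb1.union hb2).union hb3)
  simp only [Set.mem_union, not_or] at hc
  refine ⟨c, hc.1.1, hc.1.2, ?_⟩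
  intro k hk h
  apply hc.2
  exact Set.mem_biUnion (x := 4 * om J v (E N c *ᵥ v) ^ 2 / om J v v ^ 2 - 2) ⟨k, hk, h⟩ rfl

/-- one more vector -/
theorem add_vec (hPL : S_PLN) (hCT : S_CTB) (hJ : J.transpose = J) (S : Submonoid (Matrix (Fin d) (Fin d) ℂ))
    (hCl : Cl (S : Set (Matrix (Fin d) (Fin d) ℂ))) (U : Submodule ℂ (Fin d → ℂ)) (v w : Fin d → ℂ) (hvU : v ∈ U)
    (hU : ∀ x ∈ U, om J x x ≠ 0 → rf J x ∈ S) (hvv : om J v v ≠ 0) (hww : om J w w = om J v v) (hvw : om J v w ≠ 0)
    (hτ : ∀ k : ℕ, 1 ≤ k → uu (4 * om J v w ^ 2 / om J v v ^ 2 - 2) k ≠ 0) (hwS : rf J w ∈ S)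
    (y : Fin d → ℂ) (hy : y ∈ U) (a : ℂ) (hz : om J (y + a • w) (y + a • w) ≠ 0) : rf J (y + a • w) ∈ S := by
  have hquad : ∀ u : Fin d → ℂ, ∀ η : ℂ, om J (u + η • v) (u + η • v) = om J u u + 2 * om J u v * η + om J v v * η ^ 2 := by
    intro u η
    rw [om_add, om_add_left, om_add_left, om_smul, om_smul, om_smul_left, om_smul_left, om_symm hJ u v]
    ring
  have hlin : ∀ η : ℂ, om J (y + η • v) w = om J y w + om J v w * η := by
    intro η
    rw [om_add_left, om_smul_left]; ring
  have c1 : {η : ℂ | om J (y + η • v) (y + η • v) = 0}.Countable := by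
    have := (quad_fin (om J y y) (2 * om J y v) (om J v v) hvv).countable
    refine this.mono ?_
    intro η hη
    simp only [Set.mem_setOf_eq] at hη ⊢
    rw [← hquad]; exact hη
  have c2 : {η : ℂ | om J (y + η • v) w = 0}.Countable := by
    have := (lin_fin (om J y w) (om J v w) hvw).countable
    refine this.mono ?_
    intro η hη
    simp only [Set.mem_setOf_eq] at hη ⊢
    rw [← hlin]; exact hη
  have c4 : {η : ℂ | om J ((y + a • w) + η • v) ((y + a • w) + η • v) = 0}.Countable := by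
    have := (quad_fin (om J (y + a • w) (y + a • w)) (2 * om J (y + a • w) v) (om J v v) hvv).countable
    refine this.mono ?_
    intro η hη
    simp only [Set.mem_setOf_eq] at hη ⊢
    rw [← hquad]; exact hη
  have c3 : (⋃ τ ∈ {τ : ℂ | ∃ k : ℕ, 1 ≤ k ∧ uu τ k = 0},
      {η : ℂ | 4 * om J (y + η • v) w ^ 2 - (τ + 2) * om J v v * om J (y + η • v) (y + η • v) = 0}).Countable := by
    apply Set.Countable.biUnion hCT
    intro τ hτT
    have hlead : 4 * om J v w ^ 2 - (τ + 2) * om J v v * om J v v ≠ 0 := by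
      intro h
      obtain ⟨k, hk, hk0⟩ := hτT
      apply hτ k hk
      have : 4 * om J v w ^ 2 / om J v v ^ 2 - 2 = τ := by
        field_simp
        linear_combination h
      rw [this]; exact hk0
    have := (quad_fin (4 * om J y w ^ 2 - (τ + 2) * om J v v * om J y y)
      (8 * om J y w * om J v w - (τ + 2) * om J v v * (2 * om J y v))
      (4 * om J v w ^ 2 - (τ + 2) * om J v v * om J v v) hlead).countable
    refine this.mono ?_
    intro η hη
    simp only [Set.mem_setOf_eq] at hη ⊢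
    rw [hquad, hlin] at hη
    linear_combination hη
  have hgood : ∀ η : ℂ, η ∉ (({η : ℂ | om J (y + η • v) (y + η • v) = 0} ∪ {η : ℂ | om J (y + η • v) w = 0}) ∪
      ({η : ℂ | om J ((y + a • w) + η • v) ((y + a • w) + η • v) = 0} ∪
      (⋃ τ ∈ {τ : ℂ | ∃ k : ℕ, 1 ≤ k ∧ uu τ k = 0},
      {η : ℂ | 4 * om J (y + η • v) w ^ 2 - (τ + 2) * om J v v * om J (y + η • v) (y + η • v) = 0}))) →
      rf J ((y + a • w) + η • v) ∈ S := by
    intro η hη
    simp only [Set.mem_union, not_or, Set.mem_setOf_eq] at hη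
    obtain ⟨⟨h1, h2⟩, h4, h3⟩ := hη
    have hyU : y + η • v ∈ U := U.add_mem hy (U.smul_mem η hvU)
    have e : y + a • w + η • v = (1 : ℂ) • (y + η • v) + a • w := by rw [one_smul]; abel
    rw [e] at h4 ⊢
    apply hPL d J S hJ hCl (y + η • v) w h1 (by rw [hww]; exact hvv) h2 ?_ (hU _ hyU h1) hwS 1 a h4
    intro k hk hk0
    apply h3
    refine Set.mem_biUnion (x := 4 * om J (y + η • v) w ^ 2 / (om J (y + η • v) (y + η • v) * om J w w) - 2)
      ⟨k, hk, hk0⟩ ?_
    simp only [Set.mem_setOf_eq]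
    rw [hww]
    field_simp
    ring
  have hInf : {t : ℂ | (rr J (y + a • w) v).eval t ≠ 0 ∧
      ((rr J (y + a • w) v).eval t)⁻¹ • (Mr J (y + a • w) v).map (Polynomial.eval t) ∈ S}.Infinite := by
    intro hfin
    obtain ⟨t, ht⟩ := exists_out ((((c1.union c2).union (c4.union c3))).union hfin.countable)
    rw [Set.mem_union, not_or] at ht
    apply ht.2
    have h5 := hgood t ht.1
    have h6 : om J ((y + a • w) + t • v) ((y + a • w) + t • v) ≠ 0 := by
      have := ht.1
      simp only [Set.mem_union, not_or, Set.mem_setOf_eq] at this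
      exact this.2.1
    have h7 : (rr J (y + a • w) v).eval t ≠ 0 := by rw [rr_eval hJ]; exact h6
    refine ⟨h7, ?_⟩
    rw [Mr_eval hJ _ _ _ h7]
    exact h5
  have h0 : (rr J (y + a • w) v).eval 0 ≠ 0 := by
    rw [rr_eval hJ, zero_smul, add_zero]; exact hz
  have h8 := hCl _ _ hInf 0 h0
  rw [Mr_eval hJ _ _ _ h0, zero_smul, add_zero] at h8
  exact h8

/-- **ALR** -/
theorem alr : S_PLN → S_CTB → S_ALR := by
  intro hPL hCT d J N v S hJ hN hNJ hNv hvv hi hE hvS hCl
  have hv0 : v ≠ 0 := by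
    rintro rfl
    apply hNv; rw [mulVec_zero]
  have hd : 1 ≤ d := by
    rcases Nat.eq_zero_or_pos d with h | h
    · subst h
      exact absurd (Subsingleton.elim v 0) hv0
    · exact h
  have key : ∀ r : ℕ, 1 ≤ r → r ≤ d → ∃ U : Submodule ℂ (Fin d → ℂ), v ∈ U ∧ r ≤ Module.finrank ℂ U ∧
      ∀ x ∈ U, om J x x ≠ 0 → rf J x ∈ S := by
    intro r
    induction r with
    | zero => intro h; omega
    | succ r ih =>
      intro _ hr
      rcases Nat.eq_zero_or_pos r with h0 | hpos
      · subst h0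
        refine ⟨Submodule.span ℂ {v}, Submodule.mem_span_singleton_self v, ?_, ?_⟩
        · rw [finrank_span_singleton hv0]
        · intro x hx hxx
          obtain ⟨c, rfl⟩ := Submodule.mem_span_singleton.1 hx
          have hc : c ≠ 0 := by
            rintro rfl
            apply hxx; rw [zero_smul]; unfold om; simp
          rw [rf_smul hc]; exact hvS
      · obtain ⟨U, hvU, hUr, hU⟩ := ih hpos (by omega)
        by_cases hbig : r + 1 ≤ Module.finrank ℂ U
        · exact ⟨U, hvU, hbig, hU⟩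
        have hUlt : U < ⊤ := by
          rw [lt_top_iff_ne_top]
          rintro rfl
          rw [finrank_top, Module.finrank_fin_fun] at hbig
          omega
        obtain ⟨l, hl0, hlU⟩ := Submodule.exists_le_ker_of_lt_top U hUlt
        obtain ⟨c, hc1, hc2, hc3⟩ := choose_c hCT v hN hNv hvv hi l hl0
        obtain ⟨w, hw⟩ : ∃ w, w = E N c *ᵥ v := ⟨_, rfl⟩
        rw [← hw] at hc1 hc2 hc3
        have hww : om J w w = om J v v := by rw [hw]; exact om_isom (E_isom hN hNJ c) v v
        have hwS : rf J w ∈ S := by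
          rw [hw, ← rf_conj (E_mul_neg hN c) (E_isom hN hNJ c)]
          exact hE c _ hvS
        have hwU : w ∉ U := fun h => hc1 (LinearMap.mem_ker.1 (hlU h))
        refine ⟨U ⊔ Submodule.span ℂ {w}, Submodule.mem_sup_left hvU, ?_, ?_⟩
        · have h1 : U < U ⊔ Submodule.span ℂ {w} :=
            lt_of_le_of_ne le_sup_left fun h => hwU (by
              rw [h]; exact Submodule.mem_sup_right (Submodule.mem_span_singleton_self w))
          have := Submodule.finrank_lt_finrank_of_lt h1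
          omega
        · intro x hx hxx
          obtain ⟨y, hy, z, hz, rfl⟩ := Submodule.mem_sup.1 hx
          obtain ⟨a, rfl⟩ := Submodule.mem_span_singleton.1 hz
          exact add_vec hPL hCT hJ S hCl U v w hvU hU hvv hww hc2 hc3 hwS y hy a hxx
  obtain ⟨U, -, hU1, hU2⟩ := key d hd le_rfl
  have : U = ⊤ := by
    apply Submodule.eq_top_of_finrank_eq
    rw [Module.finrank_fin_fun]
    have := Submodule.finrank_le U
    rw [Module.finrank_fin_fun] at this
    omega
  intro x hx
  exact hU2 x (by rw [this]; trivial) hx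

end Pool.Agent.P8H88.OX
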