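import Pool.Agent.P8H88.OX.Rf

/-! # Project OX: packages PLN and CTB -/

set_option autoImplicit false

open Module Matrix

namespace Pool.Agent.P8H88.OX

open Pool.Agent.Y119.HY (om om_eq om_add om_smul)
open Pool.Agent.P8H30.OX

/-- Chebyshev polynomials -/
noncomputable def UU : ℕ → Polynomial ℂ
  | 0 => 0
  | 1 => 1
  | (k + 2) => Polynomial.X * UU (k + 1) - UU k

theorem UU_eval (τ : ℂ) : ∀ k, (UU k).eval τ = uu τ k ∧ (UU (k + 1)).eval τ = uu τ (k + 1) := by
  intro k
  induction k with
  | zero => simp [UU, uu]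
  | succ k ih =>
    refine ⟨ih.2, ?_⟩
    rw [UU, uu, Polynomial.eval_sub, Polynomial.eval_mul, Polynomial.eval_X, ih.1, ih.2]

theorem uu_two : ∀ k, uu 2 k = k ∧ uu 2 (k + 1) = k + 1 := by
  intro k
  induction k with
  | zero => simp [uu]
  | succ k ih =>
    refine ⟨by rw [ih.2]; push_cast; ring, ?_⟩
    rw [uu, ih.1, ih.2]; push_cast; ring

/-- **CTB** -/
theorem ctb : S_CTB := by
  have : {τ : ℂ | ∃ k : ℕ, 1 ≤ k ∧ uu τ k = 0} = ⋃ k ∈ {k : ℕ | 1 ≤ k}, {τ : ℂ | uu τ k = 0} := by
    ext τ
    simp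
  unfold S_CTB
  rw [this]
  apply Set.Countable.biUnion (Set.to_countable _)
  intro k hk
  apply Set.Finite.countable
  have hne : UU k ≠ 0 := by
    intro h
    have h1 := (UU_eval 2 k).1
    rw [h, Polynomial.eval_zero, (uu_two k).1] at h1
    have : (k : ℂ) = 0 := h1.symm
    rw [Nat.cast_eq_zero] at this
    simp only [Set.mem_setOf_eq] at hk
    omega
  refine (Polynomial.finite_setOf_isRoot hne).subset ?_
  intro τ hτ
  simp only [Set.mem_setOf_eq] at hτ ⊢
  rw [Polynomial.IsRoot.def, (UU_eval τ k).1, hτ]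

/-- the determinant identity -/
theorem uu_det (τ : ℂ) (m : ℕ) : ∀ k, uu τ (k + 1) * uu τ (k + m) - uu τ k * uu τ (k + m + 1) = uu τ m := by
  intro k
  induction k with
  | zero => simp [uu]
  | succ k ih =>
    have e1 : uu τ (k + 1 + 1) = τ * uu τ (k + 1) - uu τ k := rfl
    have e2 : uu τ (k + 1 + m + 1) = τ * uu τ (k + m + 1) - uu τ (k + m) := by
      have : k + 1 + m + 1 = (k + m) + 2 := by ring
      rw [this]; rfl
    have e3 : k + 1 + m = k + m + 1 := by ring
    rw [e1, e2, e3]
    linear_combination ih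

variable {d : ℕ} {J : Matrix (Fin d) (Fin d) ℂ}

/-- the powers of the product of two reflections -/
theorem rho_pow (hJ : J.transpose = J) (x y : Fin d → ℂ) (hx : om J x x ≠ 0) (hy : om J y y ≠ 0) (k : ℕ) :
    (rf J x * rf J y) ^ k *ᵥ x =
      (uu (4 * om J x y ^ 2 / (om J x x * om J y y) - 2) (k + 1) + uu (4 * om J x y ^ 2 / (om J x x * om J y y) - 2) k) • x +
        (-2 * (om J x y / om J y y) * uu (4 * om J x y ^ 2 / (om J x x * om J y y) - 2) k) • y := by
  set τ := 4 * om J x y ^ 2 / (om J x x * om J y y) - 2 with hτ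
  have hyx : om J y x = om J x y := om_symm hJ x y
  have hstep : ∀ a b : ℂ, (rf J x * rf J y) *ᵥ (a • x + b • y) =
      ((τ + 1) * a + 2 * (om J x y / om J x x) * b) • x + (-2 * (om J x y / om J y y) * a - b) • y := by
    intro a b
    have e1 : rf J y *ᵥ (a • x + b • y) = a • x + (-2 * (om J x y / om J y y) * a - b) • y := by
      rw [rf_mulVec, om_add, om_smul, om_smul, hyx]
      have : 2 / om J y y * (a * om J x y + b * om J y y) = 2 * (om J x y / om J y y) * a + 2 * b := by
        field_simp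
      rw [this]
      ext i
      simp only [Pi.sub_apply, Pi.add_apply, Pi.smul_apply, smul_eq_mul]
      ring
    rw [← mulVec_mulVec, e1, rf_mulVec, om_add, om_smul, om_smul]
    have e2 : 2 / om J x x * (a * om J x x + (-2 * (om J x y / om J y y) * a - b) * om J x y) =
        a - ((τ + 1) * a + 2 * (om J x y / om J x x) * b) := by
      rw [hτ]; field_simp; ring
    rw [e2]
    ext i
    simp only [Pi.sub_apply, Pi.add_apply, Pi.smul_apply, smul_eq_mul]
    ring
  induction k with
  | zero =>
    simp [uu]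
  | succ k ih =>
    rw [pow_succ', ← mulVec_mulVec, ih, hstep]
    have e1 : uu τ (k + 1 + 1) = τ * uu τ (k + 1) - uu τ k := rfl
    rw [e1]
    have e3 : (om J x y / om J x x) * (om J x y / om J y y) * 4 = τ + 2 := by
      rw [hτ]; field_simp; ring
    congr 2
    · linear_combination -uu τ k * e3
    · ring

/-- reflections in the plane of `x`, `y` as a rational family -/
noncomputable def Mr (J : Matrix (Fin d) (Fin d) ℂ) (x y : Fin d → ℂ) : Matrix (Fin d) (Fin d) (Polynomial ℂ) :=
  Matrix.of fun i j =>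
    (Polynomial.C (om J x x) + Polynomial.C (2 * om J x y) * Polynomial.X + Polynomial.C (om J y y) * Polynomial.X ^ 2) *
      Polynomial.C ((1 : Matrix (Fin d) (Fin d) ℂ) i j) -
    Polynomial.C 2 * ((Polynomial.C (x i) + Polynomial.X * Polynomial.C (y i)) *
      (Polynomial.C ((x ᵥ* J) j) + Polynomial.X * Polynomial.C ((y ᵥ* J) j)))

/-- the denominator -/
noncomputable def rr (J : Matrix (Fin d) (Fin d) ℂ) (x y : Fin d → ℂ) : Polynomial ℂ :=
  Polynomial.C (om J x x) + Polynomial.C (2 * om J x y) * Polynomial.X + Polynomial.C (om J y y) * Polynomial.X ^ 2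

theorem rr_eval (hJ : J.transpose = J) (x y : Fin d → ℂ) (t : ℂ) :
    (rr J x y).eval t = om J (x + t • y) (x + t • y) := by
  unfold rr
  rw [om_add, om_add_left, om_add_left, om_smul, om_smul, om_smul_left, om_smul_left, om_symm hJ x y]
  simp only [Polynomial.eval_add, Polynomial.eval_mul, Polynomial.eval_C, Polynomial.eval_X, Polynomial.eval_pow]
  ring

theorem Mr_eval (hJ : J.transpose = J) (x y : Fin d → ℂ) (t : ℂ) (h : (rr J x y).eval t ≠ 0) :
    ((rr J x y).eval t)⁻¹ • (Mr J x y).map (Polynomial.eval t) = rf J (x + t • y) := by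
  have hr := rr_eval hJ x y t
  ext i j
  simp only [Matrix.smul_apply, Matrix.map_apply, smul_eq_mul]
  have e1 : Polynomial.eval t (Mr J x y i j) = (rr J x y).eval t * (1 : Matrix (Fin d) (Fin d) ℂ) i j -
      2 * ((x i + t * y i) * ((x ᵥ* J) j + t * (y ᵥ* J) j)) := by
    unfold Mr rr
    simp only [Matrix.of_apply, Polynomial.eval_sub, Polynomial.eval_mul, Polynomial.eval_add, Polynomial.eval_C,
      Polynomial.eval_X, Polynomial.eval_pow]
  rw [e1]
  unfold rf
  rw [Matrix.sub_apply, Matrix.smul_apply, vecMulVec_apply, add_vecMul, smul_vecMul, ← hr]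
  simp only [Pi.add_apply, Pi.smul_apply, smul_eq_mul]
  field_simp

/-- **PLN** -/
theorem pln : S_PLN := by
  intro d J S hJ hCl x y hx hy hxy huu hSx hSy a b hab
  -- the family is in `S` for infinitely many parameters
  set τ := 4 * om J x y ^ 2 / (om J x x * om J y y) - 2 with hτ
  have hρ : ∀ k, (rf J x * rf J y) ^ k ∈ S := fun k => pow_mem (mul_mem hSx hSy) k
  have hρ' : ∀ k, (rf J y * rf J x) ^ k ∈ S := fun k => pow_mem (mul_mem hSy hSx) k
  have hone : (rf J x * rf J y) * (rf J y * rf J x) = 1 := by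
    have : (rf J x * rf J y) * (rf J y * rf J x) = rf J x * (rf J y * rf J y) * rf J x := by
      simp only [Matrix.mul_assoc]
    rw [this, rf_sq hy, mul_one, rf_sq hx]
  have hone' : (rf J y * rf J x) * (rf J x * rf J y) = 1 := by
    have : (rf J y * rf J x) * (rf J x * rf J y) = rf J y * (rf J x * rf J x) * rf J y := by
      simp only [Matrix.mul_assoc]
    rw [this, rf_sq hx, mul_one, rf_sq hy]
  have hinv : ∀ k, (rf J x * rf J y) ^ k * (rf J y * rf J x) ^ k = 1 := by
    intro k
    rw [← (show Commute (rf J x * rf J y) (rf J y * rf J x) from by rw [Commute, SemiconjBy, hone, hone']).mul_pow, hone,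
      one_pow]
  have hiso : ∀ k, ((rf J x * rf J y) ^ k).transpose * J * (rf J x * rf J y) ^ k = J := by
    intro k
    induction k with
    | zero => simp
    | succ k ih =>
      rw [pow_succ, transpose_mul, transpose_mul]
      have : (rf J y).transpose * (rf J x).transpose * ((rf J x * rf J y) ^ k).transpose * J *
          ((rf J x * rf J y) ^ k * (rf J x * rf J y)) = (rf J y).transpose * ((rf J x).transpose *
            (((rf J x * rf J y) ^ k).transpose * J * (rf J x * rf J y) ^ k) * rf J x) * rf J y := by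
        simp only [Matrix.mul_assoc]
      rw [this, ih, rf_isom hJ hx, rf_isom hJ hy]
  have hrk : ∀ k, rf J ((rf J x * rf J y) ^ k *ᵥ x) ∈ S := by
    intro k
    rw [← rf_conj (hinv k) (hiso k) x]
    exact mul_mem (mul_mem (hρ k) hSx) (hρ' k)
  have hτk := rho_pow hJ x y hx hy
  rw [← hτ] at hτk
  obtain ⟨A, hA⟩ : ∃ A : ℕ → ℂ, ∀ k, A k = uu τ (k + 1) + uu τ k := ⟨_, fun _ => rfl⟩
  obtain ⟨Bk, hBk⟩ : ∃ B : ℕ → ℂ, ∀ k, B k = -2 * (om J x y / om J y y) * uu τ k := ⟨_, fun _ => rfl⟩
  have hβ : om J x y / om J y y ≠ 0 := div_ne_zero hxy hy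
  -- noncollinearity
  have hcol : ∀ k l, k < l → A k * Bk l ≠ A l * Bk k := by
    intro k l hkl h
    obtain ⟨m, rfl⟩ : ∃ m, l = k + m := ⟨l - k, by omega⟩
    have h1 := uu_det τ m k
    rw [hA, hA, hBk, hBk] at h
    have h2 : (-2 * (om J x y / om J y y)) * (uu τ (k + 1) * uu τ (k + m) - uu τ k * uu τ (k + m + 1)) = 0 := by
      linear_combination h
    rw [h1] at h2
    rcases mul_eq_zero.mp h2 with h3 | h3
    · exact mul_ne_zero (by norm_num) hβ h3
    · exact huu m (by omega) h3
  have hInf : {t : ℂ | (rr J x y).eval t ≠ 0 ∧ ((rr J x y).eval t)⁻¹ • (Mr J x y).map (Polynomial.eval t) ∈ S}.Infinite := by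
    have hK : {k : ℕ | A k ≠ 0}.Infinite := by
      by_contra hfin
      rw [Set.not_infinite] at hfin
      obtain ⟨N, hN⟩ := hfin.bddAbove
      have z1 : A (N + 1) = 0 := by
        by_contra h
        have := hN h
        omega
      have z2 : A (N + 2) = 0 := by
        by_contra h
        have := hN h
        omega
      apply hcol (N + 1) (N + 2) (by omega)
      rw [z1, z2]; ring
    refine Set.infinite_of_injOn_mapsTo (f := fun k => Bk k / A k) (s := {k : ℕ | A k ≠ 0}) ?_ ?_ hK
    · intro k hk l hl h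
      simp only [Set.mem_setOf_eq] at hk hl
      simp only at h
      rw [div_eq_div_iff hk hl] at h
      by_contra hne
      rcases Nat.lt_or_gt_of_ne hne with h1 | h1
      · exact hcol k l h1 (by linear_combination -h)
      · exact hcol l k h1 (by linear_combination h)
    · intro k hk
      simp only [Set.mem_setOf_eq] at hk ⊢
      have e1 : (A k) • (x + (Bk k / A k) • y) = (rf J x * rf J y) ^ k *ᵥ x := by
        rw [hτk k, ← hA, ← hBk, smul_add, smul_smul, mul_div_cancel₀ _ hk]
      have e2 : om J (x + (Bk k / A k) • y) (x + (Bk k / A k) • y) ≠ 0 := by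
        intro h
        have h2 := om_isom (hiso k) x x
        rw [← e1, om_smul, om_smul_left, h, mul_zero, mul_zero] at h2
        exact hx h2.symm
      have e3 : (rr J x y).eval (Bk k / A k) ≠ 0 := by rw [rr_eval hJ]; exact e2
      refine ⟨e3, ?_⟩
      rw [Mr_eval hJ x y _ e3, ← rf_smul hk, e1]
      exact hrk k
  have hall := hCl _ _ hInf
  by_cases ha : a = 0
  · rw [ha, zero_smul, zero_add] at hab ⊢
    have hb : b ≠ 0 := by
      intro h; apply hab; rw [h, zero_smul]; unfold om; simp
    rw [rf_smul hb]; exact hSy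
  · have e1 : a • x + b • y = a • (x + (b / a) • y) := by
      rw [smul_add, smul_smul, mul_div_cancel₀ _ ha]
    rw [e1] at hab ⊢
    rw [om_smul, om_smul_left] at hab
    have e2 : om J (x + (b / a) • y) (x + (b / a) • y) ≠ 0 := by
      intro h; apply hab; rw [h]; ring
    have e3 : (rr J x y).eval (b / a) ≠ 0 := by rw [rr_eval hJ]; exact e2
    rw [rf_smul ha, ← Mr_eval hJ x y _ e3]
    exact hall _ e3

end Pool.Agent.P8H88.OX
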