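import Pool.Agent.P8H30.OX.Stm

/-! # Project OX: reflections, package CD -/

set_option autoImplicit false

open Module Matrix

namespace Pool.Agent.P8H88.OX

open Pool.Agent.Y119.HY (om om_eq om_add om_smul)
open Pool.Agent.P8H30.OX

variable {n : ℕ} {J : Matrix (Fin n) (Fin n) ℂ}

lemma om_symm (hJ : J.transpose = J) (u v : Fin n → ℂ) : om J v u = om J u v := by
  unfold om
  have h1 : v ⬝ᵥ (J *ᵥ u) = u ⬝ᵥ (J.transpose *ᵥ v) := by
    rw [mulVec_transpose, dotProduct_comm u, ← dotProduct_mulVec]
  rw [h1, hJ]

lemma om_add_left (u u' v : Fin n → ℂ) : om J (u + u') v = om J u v + om J u' v := by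
  unfold om; rw [add_dotProduct]

lemma om_smul_left (c : ℂ) (u v : Fin n → ℂ) : om J (c • u) v = c * om J u v := by
  unfold om; rw [smul_dotProduct, smul_eq_mul]

lemma om_neg (u v : Fin n → ℂ) : om J u (-v) = -om J u v := by
  unfold om; rw [mulVec_neg, dotProduct_neg]

lemma om_neg_left (u v : Fin n → ℂ) : om J (-u) v = -om J u v := by
  unfold om; rw [neg_dotProduct]

lemma om_sub (u v w : Fin n → ℂ) : om J u (v - w) = om J u v - om J u w := by
  rw [sub_eq_add_neg, om_add, om_neg]; ring

lemma om_sub_left (u u' v : Fin n → ℂ) : om J (u - u') v = om J u v - om J u' v := by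
  rw [sub_eq_add_neg, om_add_left, om_neg_left]; ring

lemma om_isom {g : Matrix (Fin n) (Fin n) ℂ} (hg : g.transpose * J * g = J) (u v : Fin n → ℂ) :
    om J (g *ᵥ u) (g *ᵥ v) = om J u v := by
  unfold om
  have : (g *ᵥ u) ⬝ᵥ (J *ᵥ (g *ᵥ v)) = u ⬝ᵥ ((g.transpose * J * g) *ᵥ v) := by
    rw [← mulVec_mulVec, ← mulVec_mulVec, dotProduct_mulVec u, vecMul_transpose]
  rw [this, hg]

lemma rf_mulVec (x v : Fin n → ℂ) : rf J x *ᵥ v = v - (2 / om J x x * om J x v) • x := by
  unfold rf
  rw [sub_mulVec, one_mulVec, smul_mulVec, vecMulVec_mulVec, ← om_eq]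
  congr 1
  ext i
  simp only [Pi.smul_apply, MulOpposite.smul_eq_mul_unop, MulOpposite.unop_op, smul_eq_mul]
  ring

lemma vecMul_symm (hJ : J.transpose = J) (x : Fin n → ℂ) : x ᵥ* J = J *ᵥ x := by
  conv_lhs => rw [← hJ]
  rw [vecMul_transpose]

lemma rf_sq {x : Fin n → ℂ} (hx : om J x x ≠ 0) : rf J x * rf J x = 1 := by
  have h : vecMulVec x (x ᵥ* J) * vecMulVec x (x ᵥ* J) = om J x x • vecMulVec x (x ᵥ* J) := by
    rw [vecMulVec_mul_vecMulVec, ← om_eq, vecMulVec_smul]
  unfold rf
  rw [mul_sub, sub_mul, sub_mul, mul_one, one_mul, mul_one, smul_mul_smul_comm, h, smul_smul, sub_sub, sub_eq_self]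
  rw [← sub_smul, ← add_smul]
  have : 2 / om J x x + (2 / om J x x - 2 / om J x x * (2 / om J x x) * om J x x) = 0 := by
    field_simp; ring
  rw [this, zero_smul]

lemma rf_isom (hJ : J.transpose = J) {x : Fin n → ℂ} (hx : om J x x ≠ 0) : (rf J x).transpose * J * rf J x = J := by
  have hT : (vecMulVec x (x ᵥ* J)).transpose = vecMulVec (x ᵥ* J) x := transpose_vecMulVec _ _
  have h0 : J *ᵥ x = x ᵥ* J := (vecMul_symm hJ x).symm
  have h1 : (rf J x).transpose * J = J * rf J x := by
    unfold rf
    rw [transpose_sub, transpose_one, transpose_smul, hT, sub_mul, one_mul, smul_mul_assoc, mul_sub, mul_one,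
      mul_smul_comm, mul_vecMulVec, h0, vecMulVec_mul]
  rw [h1, Matrix.mul_assoc, rf_sq hx, mul_one]

/-- isometries conjugate reflections -/
lemma rf_conj {g h : Matrix (Fin n) (Fin n) ℂ} (hgh : g * h = 1) (hg : g.transpose * J * g = J) (v : Fin n → ℂ) :
    g * rf J v * h = rf J (g *ᵥ v) := by
  unfold rf
  rw [mul_sub, mul_one, sub_mul, hgh, mul_smul_comm, smul_mul_assoc, mul_vecMulVec, vecMulVec_mul, om_isom hg]
  congr 3
  have h1 : J * h = g.transpose * J := by
    calc J * h = g.transpose * J * g * h := by rw [hg]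
      _ = g.transpose * J * (g * h) := by rw [Matrix.mul_assoc]
      _ = g.transpose * J := by rw [hgh, mul_one]
  rw [vecMul_vecMul, h1, ← vecMul_vecMul, vecMul_transpose]

lemma rf_smul {c : ℂ} (hc : c ≠ 0) (v : Fin n → ℂ) : rf J (c • v) = rf J v := by
  unfold rf
  rw [smul_vecMul, smul_vecMulVec, vecMulVec_smul, smul_smul, om_smul, om_smul_left, smul_smul]
  congr 2
  by_cases h : om J v v = 0
  · rw [h]; simp
  · field_simp

/-- **CD** -/
theorem cd : S_CD := by
  intro n J S hJ hdet hS g hg
  obtain ⟨b, hb⟩ := LinearMap.BilinForm.exists_orthogonal_basis (B := Matrix.toBilin' J) (by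
    constructor
    intro u v
    rw [Matrix.toBilin'_apply', Matrix.toBilin'_apply']
    exact (om_symm hJ u v).symm)
  have hB : ∀ u v, Matrix.toBilin' J u v = om J u v := fun u v => Matrix.toBilin'_apply' J u v
  have hnd : (Matrix.toBilin' J).Nondegenerate := LinearMap.BilinForm.nondegenerate_toBilin'_of_det_ne_zero' J hdet
  have hbb : ∀ i, om J (b i) (b i) ≠ 0 := by
    intro i
    rw [← hB]
    exact hb.not_isOrtho_basis_self_of_separatingLeft hnd.1 i
  have hbo : ∀ i j, i ≠ j → om J (b i) (b j) = 0 := by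
    intro i j hij
    rw [← hB]
    exact hb hij
  have key : ∀ k : ℕ, ∀ g : Matrix (Fin n) (Fin n) ℂ, g.transpose * J * g = J →
      (∀ i : Fin (finrank ℂ (Fin n → ℂ)), k ≤ (i : ℕ) → g *ᵥ (b i) = b i) → g ∈ S := by
    intro k
    induction k with
    | zero =>
      intro g _ hfix
      have : g = 1 := by
        have h1 : Matrix.mulVecLin g = LinearMap.id := b.ext fun i => by
          rw [Matrix.mulVecLin_apply, hfix i (Nat.zero_le _)]; rfl
        have h2 : ∀ v, g *ᵥ v = (1 : Matrix (Fin n) (Fin n) ℂ) *ᵥ v := fun v => by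
          rw [one_mulVec, ← Matrix.mulVecLin_apply, h1]; rfl
        exact Matrix.mulVec_injective (funext h2)
      rw [this]; exact one_mem S
    | succ k ih =>
      intro g hg hfix
      by_cases hk : k < finrank ℂ (Fin n → ℂ)
      swap
      · apply ih g hg
        intro i hi
        exact absurd i.2 (by omega)
      obtain ⟨x, hx⟩ : ∃ x, x = b ⟨k, hk⟩ := ⟨_, rfl⟩
      have hxx : om J x x ≠ 0 := by rw [hx]; exact hbb _
      have hgg : om J (g *ᵥ x) (g *ᵥ x) = om J x x := om_isom hg x x
      have hsym : om J (g *ᵥ x) x = om J x (g *ᵥ x) := om_symm hJ _ _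
      -- orthogonality
      have hgo : ∀ i : Fin (finrank ℂ (Fin n → ℂ)), k + 1 ≤ (i : ℕ) → om J (g *ᵥ x) (b i) = 0 ∧ om J x (b i) = 0 := by
        intro i hi
        have h1 : om J x (b i) = 0 := by
          rw [hx]; apply hbo; intro h; rw [← h] at hi; simp at hi
        refine ⟨?_, h1⟩
        rw [← hfix i hi, om_isom hg, h1]
      have hmul : ∀ (A B : Matrix (Fin n) (Fin n) ℂ), A.transpose * J * A = J → B.transpose * J * B = J →
          (A * B).transpose * J * (A * B) = J := by
        intro A B hA hB'
        rw [transpose_mul]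
        have : B.transpose * A.transpose * J * (A * B) = B.transpose * (A.transpose * J * A) * B := by
          simp only [Matrix.mul_assoc]
        rw [this, hA, hB']
      by_cases hy : om J (g *ᵥ x - x) (g *ᵥ x - x) = 0
      · -- the other reflection
        obtain ⟨y, hyd⟩ : ∃ y, y = g *ᵥ x + x := ⟨_, rfl⟩
        have hyy : om J y y = 4 * om J x x := by
          rw [om_sub, om_sub_left, om_sub_left, hgg, hsym] at hy
          rw [hyd, om_add, om_add_left, om_add_left, hgg, hsym]
          linear_combination -hy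
        have hyy0 : om J y y ≠ 0 := by rw [hyy]; exact mul_ne_zero (by norm_num) hxx
        have hygx : om J y (g *ᵥ x) = om J y y / 2 := by
          rw [om_sub, om_sub_left, om_sub_left, hgg, hsym] at hy
          rw [hyy, hyd, om_add_left, hgg]
          linear_combination -(1 / 2) * hy
        have e1 : rf J y *ᵥ (g *ᵥ x) = -x := by
          rw [rf_mulVec, hygx]
          have : 2 / om J y y * (om J y y / 2) = 1 := by field_simp
          rw [this, one_smul, hyd]
          abel
        have e2 : rf J x *ᵥ (-x) = x := by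
          rw [rf_mulVec, om_neg]
          have : 2 / om J x x * -om J x x = -2 := by field_simp
          rw [this]
          ext i
          simp only [Pi.sub_apply, Pi.neg_apply, Pi.smul_apply, smul_eq_mul]
          ring
        have hiso := hmul _ _ (rf_isom hJ hxx) (hmul _ _ (rf_isom hJ hyy0) hg)
        have hmem : rf J x * (rf J y * g) ∈ S := by
          apply ih _ hiso
          intro i hi
          rw [← mulVec_mulVec, ← mulVec_mulVec]
          rcases Nat.eq_or_lt_of_le hi with hi | hi
          · have : i = ⟨k, hk⟩ := Fin.ext hi.symm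
            rw [this, ← hx, e1, e2]
          · have hyb : om J y (b i) = 0 := by rw [hyd, om_add_left, (hgo i hi).1, (hgo i hi).2, add_zero]
            rw [hfix i hi, rf_mulVec y (b i), hyb, mul_zero, zero_smul, sub_zero, rf_mulVec x (b i), (hgo i hi).2,
              mul_zero, zero_smul, sub_zero]
        have hg' : g = rf J y * (rf J x * (rf J x * (rf J y * g))) := by
          have : rf J y * (rf J x * (rf J x * (rf J y * g))) = rf J y * ((rf J x * rf J x) * (rf J y * g)) := by
            simp only [Matrix.mul_assoc]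
          rw [this, rf_sq hxx, one_mul, ← Matrix.mul_assoc, rf_sq hyy0, one_mul]
        rw [hg']
        exact mul_mem (hS y hyy0) (mul_mem (hS x hxx) hmem)
      · obtain ⟨y, hyd⟩ : ∃ y, y = g *ᵥ x - x := ⟨_, rfl⟩
        rw [← hyd] at hy
        have hyy : om J y y = 2 * om J x x - 2 * om J x (g *ᵥ x) := by
          rw [hyd, om_sub, om_sub_left, om_sub_left, hgg, hsym]
          ring
        have hygx : om J y (g *ᵥ x) = om J y y / 2 := by
          rw [hyy, hyd, om_sub_left, hgg]
          ring
        have e1 : rf J y *ᵥ (g *ᵥ x) = x := by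
          rw [rf_mulVec, hygx]
          have : 2 / om J y y * (om J y y / 2) = 1 := by field_simp
          rw [this, one_smul, hyd]
          abel
        have hiso := hmul _ _ (rf_isom hJ hy) hg
        have hmem : rf J y * g ∈ S := by
          apply ih _ hiso
          intro i hi
          rw [← mulVec_mulVec]
          rcases Nat.eq_or_lt_of_le hi with hi | hi
          · have : i = ⟨k, hk⟩ := Fin.ext hi.symm
            rw [this, ← hx, e1]
          · have hyb : om J y (b i) = 0 := by rw [hyd, om_sub_left, (hgo i hi).1, (hgo i hi).2, sub_zero]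
            rw [hfix i hi, rf_mulVec y (b i), hyb, mul_zero, zero_smul, sub_zero]
        have hg' : g = rf J y * (rf J y * g) := by
          rw [← Matrix.mul_assoc, rf_sq hy, one_mul]
        rw [hg']
        exact mul_mem (hS y hy) hmem
  exact key (finrank ℂ (Fin n → ℂ)) g hg fun i hi => absurd i.2 (by omega)

end Pool.Agent.P8H88.OX
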